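import Pool.Agent.H816Z.Spec

set_option autoImplicit false

open Topology Filter

namespace Pool.Agent.H784Z.Cov

open Pool.Agent.H816Z

variable {M : Type} [TopologicalSpace M]

lemma q_map_trans {x y z : M} (a : Path.Homotopic.Quotient x y) (b : Path.Homotopic.Quotient y z)
    (f : C(M, M)) : (a.trans b).map f = (a.map f).trans (b.map f) := by
  induction a using Path.Homotopic.Quotient.ind with | mk a =>
  induction b using Path.Homotopic.Quotient.ind with | mk b =>
  rw [← Path.Homotopic.Quotient.mk_trans, ← Path.Homotopic.Quotient.mk_map,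
    ← Path.Homotopic.Quotient.mk_map, ← Path.Homotopic.Quotient.mk_map,
    ← Path.Homotopic.Quotient.mk_trans, Path.map_trans]

/-- the self-map of the path cover induced by `f` -/
noncomputable def phi (f : C(M, M)) (x : M) (κ : Path.Homotopic.Quotient x (f x)) (a : PE (f x)) : PE (f x) :=
  ⟨f a.1, (κ.trans a.2).map f⟩

lemma cancel {x y z : M} (κ : Path.Homotopic.Quotient x y) (a : Path.Homotopic.Quotient y z) :
    κ.symm.trans (κ.trans a) = a := by
  rw [← Path.Homotopic.Quotient.trans_assoc, Path.Homotopic.Quotient.symm_trans,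
    Path.Homotopic.Quotient.refl_trans]

lemma cancel' {x y z : M} (κ : Path.Homotopic.Quotient x y) (a : Path.Homotopic.Quotient x z) :
    κ.trans (κ.symm.trans a) = a := by
  rw [← Path.Homotopic.Quotient.trans_assoc, Path.Homotopic.Quotient.trans_symm,
    Path.Homotopic.Quotient.refl_trans]

lemma phi_inj (f : C(M, M)) (cov : IsCoveringMap f) (x : M)
    (κ : Path.Homotopic.Quotient x (f x)) : Function.Injective (phi f x κ) := by
  rintro ⟨y, γ⟩ ⟨y', γ'⟩ h
  let e : PE (f x) → M := fun a => (cov.monodromy a.2 ⟨x, rfl⟩).1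
  have he : ∀ a : PE (f x), e (phi f x κ a) = a.1 := fun a =>
    congrArg Subtype.val (cov.monodromy_map (κ.trans a.2))
  have hy : y = y' := by
    have h1 := he ⟨y, γ⟩
    rw [h, he] at h1
    exact h1.symm
  subst hy
  have h2 : (κ.trans γ).map f = (κ.trans γ').map f := eq_of_heq (Sigma.mk.inj h).2
  have h3 : κ.trans γ = κ.trans γ' := cov.injective_path_homotopic_map x y h2
  have h4 : γ = γ' := by rw [← cancel κ γ, h3, cancel]
  rw [h4]

lemma phi_surj (f : C(M, M)) (cov : IsCoveringMap f) (x : M)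
    (κ : Path.Homotopic.Quotient x (f x)) : Function.Surjective (phi f x κ) := by
  rintro ⟨z, δ⟩
  let e : f ⁻¹' {f x} := ⟨x, rfl⟩
  refine ⟨⟨(cov.monodromy δ e).1, κ.symm.trans (cov.liftPathQuotient δ e)⟩, ?_⟩
  refine Sigma.ext (cov.monodromy δ e).2 ?_
  change HEq ((κ.trans (κ.symm.trans (cov.liftPathQuotient δ e))).map f) δ
  rw [cancel']
  exact (heq_of_eq (cov.map_liftPathQuotient δ e)).trans (Path.Homotopic.Quotient.cast_heq _ _)

lemma pe_ext {u v w w' : M} (q : Path.Homotopic.Quotient u v) (δ : Path v w) (δ' : Path v w')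
    (h : ∀ t, δ t = δ' t) :
    (⟨w, q.trans (Path.Homotopic.Quotient.mk δ)⟩ : PE u) =
      ⟨w', q.trans (Path.Homotopic.Quotient.mk δ')⟩ := by
  obtain rfl : w = w' := by rw [← δ.target, h, δ'.target]
  obtain rfl : δ = δ' := by ext t; exact h t
  rfl

lemma R_fwd (f : C(M, M)) (x : M) (κ : Path.Homotopic.Quotient x (f x)) (U : Set M)
    (a b : PE (f x)) (h : (pathSys (f x)).R (f ⁻¹' U) a b) :
    (pathSys (f x)).R U (phi f x κ a) (phi f x κ b) := by
  obtain ⟨δ, h1, h2⟩ := h
  refine ⟨δ.map f.continuous, ?_, ?_⟩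
  · rintro _ ⟨t, rfl⟩
    exact h1 ⟨t, rfl⟩
  · change (κ.trans b.2).map f =
      ((κ.trans a.2).map f).trans (Path.Homotopic.Quotient.mk (δ.map f.continuous))
    rw [h2, ← Path.Homotopic.Quotient.trans_assoc, q_map_trans, Path.Homotopic.Quotient.mk_map]

lemma R_bwd (f : C(M, M)) (cov : IsCoveringMap f) (x : M) (κ : Path.Homotopic.Quotient x (f x))
    (U : Set M) (a b : PE (f x)) (h : (pathSys (f x)).R U (phi f x κ a) (phi f x κ b)) :
    (pathSys (f x)).R (f ⁻¹' U) a b := by
  obtain ⟨δ, h1, h2⟩ := h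
  have h0 : (δ : C(unitInterval, M)) 0 = f a.1 := δ.source
  let Γ := cov.liftPath (δ : C(unitInterval, M)) a.1 h0
  have hΓ : ∀ t, f (Γ t) = δ t := fun t => congrFun (cov.liftPath_lifts _ a.1 h0) t
  let δ1 : Path a.1 (Γ 1) := ⟨Γ, cov.liftPath_zero _ _ _, rfl⟩
  let b' : PE (f x) := ⟨Γ 1, a.2.trans (Path.Homotopic.Quotient.mk δ1)⟩
  have e : phi f x κ b' = phi f x κ b := by
    have e1 : phi f x κ b' = ⟨f (Γ 1), ((κ.trans a.2).map f).trans
        (Path.Homotopic.Quotient.mk (δ1.map f.continuous))⟩ := by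
      change (⟨f (Γ 1), (κ.trans (a.2.trans (Path.Homotopic.Quotient.mk δ1))).map f⟩ : PE (f x)) = _
      rw [← Path.Homotopic.Quotient.trans_assoc, q_map_trans, Path.Homotopic.Quotient.mk_map]
    have e2 : phi f x κ b = ⟨f b.1, ((κ.trans a.2).map f).trans
        (Path.Homotopic.Quotient.mk δ)⟩ := by
      change (⟨f b.1, (phi f x κ b).2⟩ : PE (f x)) = _
      rw [h2]
      rfl
    rw [e1, e2]
    exact pe_ext _ _ _ hΓ
  have e' := phi_inj f cov x κ e
  suffices hR : (pathSys (f x)).R (f ⁻¹' U) a b' by rwa [e'] at hR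
  refine ⟨δ1, ?_, rfl⟩
  rintro _ ⟨t, rfl⟩
  change f (Γ t) ∈ U
  rw [hΓ]
  exact h1 ⟨t, rfl⟩

/-- change of base point along `κ` -/
noncomputable def conj {x y : M} (κ : Path.Homotopic.Quotient x y) :
    FundamentalGroup M y →* FundamentalGroup M x :=
  MonoidHom.mk' (fun g => FundamentalGroup.fromPath
      (κ.trans ((FundamentalGroup.toPath g).trans κ.symm))) (by
    intro p q
    change κ.trans (((FundamentalGroup.toPath q).trans (FundamentalGroup.toPath p)).trans κ.symm) =
      (κ.trans ((FundamentalGroup.toPath q).trans κ.symm)).trans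
        (κ.trans ((FundamentalGroup.toPath p).trans κ.symm))
    simp only [Path.Homotopic.Quotient.trans_assoc, cancel])

lemma conj_surj {x y : M} (κ : Path.Homotopic.Quotient x y) : Function.Surjective (conj κ) := by
  intro g
  refine ⟨FundamentalGroup.fromPath (κ.symm.trans ((FundamentalGroup.toPath g).trans κ)), ?_⟩
  change κ.trans ((κ.symm.trans ((FundamentalGroup.toPath g).trans κ)).trans κ.symm) =
    FundamentalGroup.toPath g
  simp only [Path.Homotopic.Quotient.trans_assoc, cancel', Path.Homotopic.Quotient.trans_symm,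
    Path.Homotopic.Quotient.trans_refl]

lemma sheets [CompactSpace M] [T2Space M] (f : C(M, M)) (cov : IsCoveringMap f) (z : M)
    (U : M → Set M) (hU : ∀ y, U y ∈ 𝓝 y) :
    ∃ V ∈ 𝓝 z, ∀ u : M, f u ∈ V → ∃ y, ∀ (v : M) (δ : Path u v), Set.range δ ⊆ f ⁻¹' V →
      Set.range δ ⊆ U y := by
  have hfin : (f ⁻¹' {z}).Finite := by
    have h1 : IsCompact (f ⁻¹' {z}) := (isClosed_singleton.preimage f.continuous).isCompact
    exact h1.finite (isDiscrete_iff_discreteTopology.mpr (cov z).discreteTopology_fiber)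
  obtain ⟨W0, hW0, hdisj⟩ := hfin.t2_separation
  let W : M → Set M := fun y => W0 y ∩ interior (U y)
  have hWo : ∀ y, IsOpen (W y) := fun y => (hW0 y).2.inter isOpen_interior
  have hWm : ∀ y, y ∈ W y := fun y => ⟨(hW0 y).1, mem_interior_iff_mem_nhds.mpr (hU y)⟩
  let O : Set M := ⋃ y ∈ f ⁻¹' {z}, W y
  have hO : IsOpen O := isOpen_biUnion fun y _ => hWo y
  have hcl : IsClosed (f '' Oᶜ) := (hO.isClosed_compl.isCompact.image f.continuous).isClosed
  have hsub : ∀ u, f u ∈ (f '' Oᶜ)ᶜ → u ∈ O := by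
    intro u hu
    by_contra hc
    exact hu ⟨u, hc, rfl⟩
  refine ⟨(f '' Oᶜ)ᶜ, hcl.isOpen_compl.mem_nhds ?_, ?_⟩
  · rintro ⟨u, hu, e⟩
    exact hu (Set.mem_biUnion (x := u) e (hWm u))
  · intro u hu
    obtain ⟨y, hy, huy⟩ := Set.mem_iUnion₂.mp (hsub u hu)
    refine ⟨y, fun v δ hδ => ?_⟩
    have hpc : IsPreconnected (Set.range δ) := isPreconnected_range δ.continuous
    have := hpc.subset_left_of_subset_union (u := W y)
      (v := ⋃ y' ∈ f ⁻¹' {z} \ {y}, W y') (hWo y) (isOpen_biUnion fun y' _ => hWo y') ?_ ?_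
      (⟨u, ⟨0, δ.source⟩, huy⟩ : (Set.range δ ∩ W y).Nonempty)
    · exact this.trans (Set.inter_subset_right.trans interior_subset)
    · rw [Set.disjoint_iUnion₂_right]
      intro y' hy'
      exact (hdisj hy hy'.1 (fun e => hy'.2 e.symm)).mono Set.inter_subset_left
        Set.inter_subset_left
    · intro w hw
      obtain ⟨y', hy', hwy⟩ := Set.mem_iUnion₂.mp (hsub w (hδ hw))
      by_cases e : y' = y
      · exact Or.inl (e ▸ hwy)
      · exact Or.inr (Set.mem_biUnion (x := y') ⟨hy', e⟩ hwy)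

theorem t6 : S_T6 := by
  intro M _ _ _ _ f cov x
  let κ : Path.Homotopic.Quotient x (f x) :=
    Path.Homotopic.Quotient.mk (PathConnectedSpace.somePath x (f x))
  let Φ : PE (f x) ≃ PE (f x) :=
    Equiv.ofBijective (phi f x κ) ⟨phi_inj f cov x κ, phi_surj f cov x κ⟩
  have hΦ : ∀ a, Φ a = phi f x κ a := fun _ => rfl
  refine ⟨Φ, (FundamentalGroup.map f x).comp (conj κ), ?_, ?_, ?_⟩
  · intro g a
    rw [hΦ, hΦ, path_smul_def, path_smul_def, ← map_inv]
    change (⟨f a.1, (κ.trans ((FundamentalGroup.toPath g⁻¹).trans a.2)).map f⟩ : PE (f x)) =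
      ⟨f a.1, ((κ.trans ((FundamentalGroup.toPath g⁻¹).trans κ.symm)).map f).trans
        ((κ.trans a.2).map f)⟩
    rw [← q_map_trans]
    simp only [Path.Homotopic.Quotient.trans_assoc, cancel]
  · ext g
    constructor
    · rintro ⟨h, rfl⟩
      exact ⟨conj κ h, rfl⟩
    · rintro ⟨h, rfl⟩
      obtain ⟨h', rfl⟩ := conj_surj κ h
      exact ⟨h', rfl⟩
  · intro n c
    constructor
    · intro hc z _
      obtain ⟨U, hU, h⟩ := hc (f z) (Set.mem_univ _)
      refine ⟨f ⁻¹' U, f.continuous.continuousAt.preimage_mem_nhds hU, fun l hl hs => ?_⟩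
      apply h
      · rw [List.length_map, hl]
      · intro a ha b hb
        obtain ⟨a', ha', rfl⟩ := List.mem_map.mp ha
        obtain ⟨b', hb', rfl⟩ := List.mem_map.mp hb
        exact R_fwd f x κ U a' b' (hs a' ha' b' hb')
    · intro hc z _
      choose U hU h using fun y => hc y (Set.mem_univ y)
      obtain ⟨V, hV, hVU⟩ := sheets f cov z U hU
      refine ⟨V, hV, fun l hl hs => ?_⟩
      obtain ⟨l1, rfl⟩ : ∃ l1 : List (PE (f x)), l = l1.map Φ :=
        ⟨l.map Φ.symm, by simp⟩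
      rw [List.length_map] at hl
      have hs' : ∀ a ∈ l1, ∀ b ∈ l1, (pathSys (f x)).R (f ⁻¹' V) a b := fun a ha b hb =>
        R_bwd f cov x κ V a b (hs _ (List.mem_map_of_mem ha) _ (List.mem_map_of_mem hb))
      cases l1 with
      | nil => exact h x [] hl (fun a ha => absurd ha List.not_mem_nil)
      | cons a0 l2 =>
        have h0 := hs' a0 List.mem_cons_self a0 List.mem_cons_self
        obtain ⟨y, hy⟩ := hVU a0.1 ((pathSys (f x)).mem h0)
        have key : ∀ b ∈ a0 :: l2, (pathSys (f x)).R (U y) a0 b := by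
          intro b hb
          obtain ⟨δ, h1, h2⟩ := hs' a0 List.mem_cons_self b hb
          exact ⟨δ, hy _ δ h1, h2⟩
        exact h y _ hl fun a ha b hb =>
          (pathSys (f x)).trans ((pathSys (f x)).symm (key a ha)) (key b hb)

end Pool.Agent.H784Z.Cov
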